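import Pool.Agent.Lib_helper27.HSC.BlowUp
import Pool.Agent.Lib_helper27.HSC.Kahler

/-!
# A blow-up of a Hirzebruch surface with positive holomorphic sectional curvature

The blow-up of the Hirzebruch surface `𝔽₀ = ℙ¹ × ℙ¹` at the two points `(0, ∞)` and `(∞, 0)` (the
del Pezzo surface `x y z = 1` of degree six in `ℙ¹ × ℙ¹ × ℙ¹`) admits a Kähler metric with positive
holomorphic sectional curvature.
-/

namespace Pool.Agent.Results.MP_3413ae_ag.BlowUpPositiveHSC

open Pool.Agent.LibH27.HSC
open scoped Manifold ContDiff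

/-- There is a compact complex surface `X` with a map `π : X → ℙ¹ × ℙ¹` which is the blow-up of the
Hirzebruch surface `𝔽₀ = ℙ¹ × ℙ¹` at the two points `(0, ∞)` and `(∞, 0)`, and `X` carries a Kähler
metric with positive holomorphic sectional curvature. -/
theorem result : ∃ (X : Type) (_ : TopologicalSpace X) (_ : ChartedSpace C2 X),
    CompactSpace X ∧ T2Space X ∧ IsManifold 𝓘(ℂ, C2) ω X ∧
    (∃ π : X → P1 × P1, IsBlowUp (𝓘(ℂ).prod 𝓘(ℂ)) π
      {(((0 : ℂ) : P1), (OnePoint.infty : P1)), ((OnePoint.infty : P1), ((0 : ℂ) : P1))}) ∧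
    ∃ g : KahlerMetric X, g.HSCPositive :=
  ⟨DP6, inferInstance, inferInstance, inferInstance, inferInstance, inferInstance,
    ⟨proj, isBlowUp_proj⟩, metric, metric_pos⟩

end Pool.Agent.Results.MP_3413ae_ag.BlowUpPositiveHSC
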